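import Mathlib
import Pool.Agent.H.MP_4074ca_co.Main

set_option autoImplicit false

namespace Pool.Agent.Results.MP_4074ca_co.LinearError

open Finset Filter Topology

/-- The pairs `(x, y)` of distinct elements of `A` with `x + 3 (y - x) ∈ A`. -/
def pairs (A : Finset ℤ) : Finset (ℤ × ℤ) :=
  (A ×ˢ A).filter fun p => p.1 ≠ p.2 ∧ p.1 + 3 * (p.2 - p.1) ∈ A

/-- `T(A)`: the number of affine copies of `{0, 1, 3}` in `A`. -/
def T (A : Finset ℤ) : ℕ := (pairs A).card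

/-- `M(n)`: the maximum of `T(A)` over the sets `A` of `n` integers. -/
noncomputable def M (n : ℕ) : ℕ := sSup {t : ℕ | ∃ A : Finset ℤ, A.card = n ∧ T A = t}

theorem T_le_sq (A : Finset ℤ) : T A ≤ A.card ^ 2 := by
  unfold T pairs
  refine (Finset.card_filter_le _ _).trans ?_
  rw [Finset.card_product, sq]

theorem bdd (n : ℕ) : BddAbove {t : ℕ | ∃ A : Finset ℤ, A.card = n ∧ T A = t} := by
  refine ⟨n ^ 2, ?_⟩
  rintro t ⟨A, hA, rfl⟩
  rw [← hA]
  exact T_le_sq A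

theorem M_attained (n : ℕ) : ∃ A : Finset ℤ, A.card = n ∧ T A = M n := by
  have hne : {t : ℕ | ∃ A : Finset ℤ, A.card = n ∧ T A = t}.Nonempty :=
    ⟨_, Finset.Ico (0 : ℤ) n, by simp, rfl⟩
  exact Nat.sSup_mem hne (bdd n)

theorem T_le_M (A : Finset ℤ) : T A ≤ M A.card := le_csSup (bdd _) ⟨A, rfl, rfl⟩

/-- The interval `{0, …, n - 1}`. -/
theorem interval_lower (n : ℕ) : n * (n / 3) ≤ T (Finset.Ico (0 : ℤ) n) + n := by
  classical
  set A : Finset ℤ := Finset.Ico (0 : ℤ) n with hA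
  have h1 : ((A ×ˢ A).filter (fun p => p.1 + 3 * (p.2 - p.1) ∈ A)).card ≤ T A + n := by
    have hsub : (A ×ˢ A).filter (fun p => p.1 + 3 * (p.2 - p.1) ∈ A) ⊆
        pairs A ∪ A.image (fun x => (x, x)) := by
      rintro ⟨x, y⟩ hp
      rw [Finset.mem_filter, Finset.mem_product] at hp
      rw [Finset.mem_union, pairs, Finset.mem_filter, Finset.mem_product, Finset.mem_image]
      by_cases hxy : x = y
      · right
        exact ⟨x, hp.1.1, by rw [hxy]⟩
      · left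
        exact ⟨hp.1, hxy, hp.2⟩
    refine (Finset.card_le_card hsub).trans ((Finset.card_union_le _ _).trans ?_)
    have : (A.image (fun x => (x, x))).card ≤ n := by
      refine Finset.card_image_le.trans ?_
      rw [hA]
      simp
    exact Nat.add_le_add le_rfl this
  refine le_trans ?_ h1
  have h2 : n * (n / 3) = (A ×ˢ (Finset.Ico (0 : ℤ) ((n / 3 : ℕ) : ℤ))).card := by
    have c1 : (Finset.Ico (0 : ℤ) n).card = n := by simp
    have c2 : (Finset.Ico (0 : ℤ) ((n / 3 : ℕ) : ℤ)).card = n / 3 := by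
      rw [Int.card_Ico, sub_zero, Int.toNat_natCast]
    rw [Finset.card_product, hA, c1, c2]
  rw [h2]
  apply Finset.card_le_card_of_injOn (fun p => (p.1, (2 * p.1 + 2) / 3 + p.2))
  · intro p hp
    have hp' := Finset.mem_product.mp (Finset.mem_coe.mp hp)
    rw [hA, Finset.mem_Ico, Finset.mem_Ico] at hp'
    apply Finset.mem_coe.mpr
    rw [Finset.mem_filter, Finset.mem_product, hA]
    simp only [Finset.mem_Ico]
    refine ⟨⟨⟨?_, ?_⟩, ⟨?_, ?_⟩⟩, ?_, ?_⟩ <;> omega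
  · intro p _ p' _ h
    have h' : (p.1, (2 * p.1 + 2) / 3 + p.2) = (p'.1, (2 * p'.1 + 2) / 3 + p'.2) := h
    have h1 : p.1 = p'.1 := (Prod.mk.inj h').1
    have h2 : (2 * p.1 + 2) / 3 + p.2 = (2 * p'.1 + 2) / 3 + p'.2 := (Prod.mk.inj h').2
    rw [h1] at h2
    exact Prod.ext h1 (by linarith)

theorem lower (n : ℕ) : (n : ℝ) ^ 2 / 3 - 15 * n ≤ M n := by
  have h1 := interval_lower n
  have h2 := T_le_M (Finset.Ico (0 : ℤ) n)
  have hc : (Finset.Ico (0 : ℤ) n).card = n := by simp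
  rw [hc] at h2
  have h3 : n * (n / 3) ≤ M n + n := h1.trans (by omega)
  have h4 : ((n * (n / 3) : ℕ) : ℝ) ≤ ((M n + n : ℕ) : ℝ) := by exact_mod_cast h3
  have h5 : (n : ℝ) / 3 - 1 ≤ ((n / 3 : ℕ) : ℝ) := by
    have : n ≤ 3 * (n / 3) + 2 := by omega
    have : (n : ℝ) ≤ 3 * ((n / 3 : ℕ) : ℝ) + 2 := by exact_mod_cast this
    linarith
  rw [Nat.cast_mul, Nat.cast_add] at h4
  have h6 : (n : ℝ) * ((n : ℝ) / 3 - 1) ≤ (n : ℝ) * ((n / 3 : ℕ) : ℝ) :=
    mul_le_mul_of_nonneg_left h5 (Nat.cast_nonneg n)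
  have h7 : (0 : ℝ) ≤ n := Nat.cast_nonneg n
  nlinarith

theorem upper (n : ℕ) : (M n : ℝ) ≤ (n : ℝ) ^ 2 / 3 + 15 * n := by
  obtain ⟨A, hA, hM⟩ := M_attained n
  rw [← hM, ← hA]
  exact Ap013.upper_bound A

theorem tendsto_M : Tendsto (fun n : ℕ => (M n : ℝ) / (n : ℝ) ^ 2) atTop (𝓝 (1 / 3)) := by
  have hinv : Tendsto (fun n : ℕ => (1 : ℝ) / (n : ℝ)) atTop (𝓝 0) :=
    tendsto_one_div_atTop_nhds_zero_nat
  have hlow : Tendsto (fun n : ℕ => (1 : ℝ) / 3 - 15 * ((1 : ℝ) / (n : ℝ))) atTop (𝓝 (1 / 3)) := by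
    have := (tendsto_const_nhds (x := (1 : ℝ) / 3)).sub (hinv.const_mul 15)
    simpa using this
  have hup : Tendsto (fun n : ℕ => (1 : ℝ) / 3 + 15 * ((1 : ℝ) / (n : ℝ))) atTop (𝓝 (1 / 3)) := by
    have := (tendsto_const_nhds (x := (1 : ℝ) / 3)).add (hinv.const_mul 15)
    simpa using this
  refine tendsto_of_tendsto_of_tendsto_of_le_of_le' hlow hup ?_ ?_
  · filter_upwards [eventually_ge_atTop 1] with n hn
    have hn0 : (0 : ℝ) < n := by exact_mod_cast hn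
    rw [le_div_iff₀ (by positivity)]
    have := lower n
    have e : (1 / 3 - 15 * (1 / (n : ℝ))) * (n : ℝ) ^ 2 = (n : ℝ) ^ 2 / 3 - 15 * n := by
      field_simp
    rw [e]
    exact this
  · filter_upwards [eventually_ge_atTop 1] with n hn
    have hn0 : (0 : ℝ) < n := by exact_mod_cast hn
    rw [div_le_iff₀ (by positivity)]
    have := upper n
    have e : (1 / 3 + 15 * (1 / (n : ℝ))) * (n : ℝ) ^ 2 = (n : ℝ) ^ 2 / 3 + 15 * n := by
      field_simp
    rw [e]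
    exact this

/-- `M(n) = n²/3 + O(n)` with the constant `15`, for every `n`; in particular `γ = 1/3`. -/
theorem result :
    (∀ n : ℕ, |(M n : ℝ) - (n : ℝ) ^ 2 / 3| ≤ 15 * (n : ℝ)) ∧
      limsup (fun n : ℕ => (M n : ℝ) / (n : ℝ) ^ 2) atTop = 1 / 3 := by
  refine ⟨fun n => ?_, tendsto_M.limsup_eq⟩
  rw [abs_le]
  have h1 := lower n
  have h2 := upper n
  constructor <;> linarith

end Pool.Agent.Results.MP_4074ca_co.LinearError
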